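import Pool.Agent.W587.MX.Stm

/-!
# T5_BRI: branch at infinity (helper29)
-/

set_option autoImplicit false
set_option maxHeartbeats 1000000

namespace Pool.Agent.W29.MX

open Set Filter Topology Metric Pool.Agent.W587.MX

theorem t5_bri : T5_BRI := by
  intro f zs hf hne h0 hzs
  have ha : AnalyticAt ℂ f zs := hf.analyticAt zs
  have hnz : ¬ ∀ᶠ z in 𝓝 zs, f z = 0 := by
    intro h
    obtain ⟨z, hz⟩ := hne
    have h1 := AnalyticOnNhd.eqOn_zero_of_preconnected_of_eventuallyEq_zero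
      (fun z _ => hf.analyticAt z) isPreconnected_univ (mem_univ zs) h
    exact hz (h1 (mem_univ z))
  obtain ⟨n, H, hH, hH0, hfH⟩ := ha.exists_eventuallyEq_pow_smul_nonzero_iff.2 hnz
  have hn : n ≠ 0 := by
    rintro rfl
    have h1 := hfH.self_of_nhds
    rw [h0, pow_zero, one_smul] at h1
    exact hH0 h1.symm
  obtain ⟨k, rfl⟩ := Nat.exists_eq_succ_of_ne_zero hn
  set D : ℂ → ℂ := fun z => z * (((k : ℂ) + 1) * H z + (z - zs) * deriv H z) with hD
  have hDa : AnalyticAt ℂ D zs := by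
    refine analyticAt_id.mul ((analyticAt_const.mul hH).add ?_)
    exact (analyticAt_id.sub analyticAt_const).mul hH.deriv
  have hD0 : D zs ≠ 0 := by
    have h1 : D zs = zs * (((k : ℂ) + 1) * H zs) := by rw [hD]; ring
    rw [h1]
    exact mul_ne_zero hzs (mul_ne_zero (Nat.cast_add_one_ne_zero k) hH0)
  set q : ℂ → ℂ := fun z => H z / D z with hq
  have hqa : AnalyticAt ℂ q zs := hH.div hDa hD0
  set G : ℂ → ℂ := fun z => (z - zs) * q z with hG
  have hGa : AnalyticAt ℂ G zs := (analyticAt_id.sub analyticAt_const).mul hqa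
  have hG0 : G zs = 0 := by rw [hG]; simp
  have hGd : HasDerivAt G (1 * q zs + (zs - zs) * deriv q zs) zs :=
    ((hasDerivAt_id zs).sub_const zs).mul hqa.differentiableAt.hasDerivAt
  have hGd0 : deriv G zs ≠ 0 := by
    rw [hGd.deriv, sub_self, zero_mul, add_zero, one_mul]
    exact div_ne_zero hH0 hD0
  have E1 : ∀ᶠ z in 𝓝 zs, f z = G z * (z * deriv f z) := by
    have h1 : f =ᶠ[𝓝 zs] fun z => (z - zs) ^ (k + 1) * H z := by
      filter_upwards [hfH] with z hz
      rw [hz, smul_eq_mul]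
    have h2 := h1.deriv
    filter_upwards [h1, h2, hH.eventually_analyticAt, hDa.continuousAt.eventually_ne hD0]
      with z z1 z2 z3 z4
    have h3 : HasDerivAt (fun w : ℂ => (w - zs) ^ (k + 1) * H w)
        (((k + 1 : ℕ) : ℂ) * (z - zs) ^ (k + 1 - 1) * 1 * H z + (z - zs) ^ (k + 1) * deriv H z) z :=
      (((hasDerivAt_id z).sub_const zs).pow (k + 1)).mul z3.differentiableAt.hasDerivAt
    rw [h3.deriv] at z2
    have h4 : z * deriv f z = (z - zs) ^ k * D z := by
      rw [z2, hD]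
      simp only [Nat.add_sub_cancel]
      push_cast
      ring
    rw [h4, z1, hG, hq]
    show _ = (z - zs) * (H z / D z) * ((z - zs) ^ k * D z)
    field_simp
    ring
  have E2 : ∀ᶠ z in 𝓝 zs, z ≠ zs → f z ≠ 0 := by
    filter_upwards [hfH, hH.continuousAt.eventually_ne hH0] with z z1 z2 z3
    rw [z1, smul_eq_mul]
    exact mul_ne_zero (pow_ne_zero _ (sub_ne_zero.2 z3)) z2
  obtain ⟨ψ, hψa, hψ0, hl, hr⟩ : ∃ ψ : ℂ → ℂ, AnalyticAt ℂ ψ 0 ∧ ψ 0 = zs ∧
      (∀ᶠ z in 𝓝 zs, ψ (G z) = z) ∧ (∀ᶠ u in 𝓝 (0 : ℂ), G (ψ u) = u) := by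
    refine ⟨hGa.hasStrictDerivAt.localInverse _ _ _ hGd0, ?_, ?_, ?_, ?_⟩
    · have h1 := hGa.analyticAt_localInverse hGd0
      rw [hG0] at h1
      exact h1
    · have h1 := (HasStrictDerivAt.eventually_left_inverse hGa.hasStrictDerivAt hGd0).self_of_nhds
      rw [hG0] at h1
      exact h1
    · exact HasStrictDerivAt.eventually_left_inverse hGa.hasStrictDerivAt hGd0
    · have h1 := HasStrictDerivAt.eventually_right_inverse hGa.hasStrictDerivAt hGd0
      rw [hG0] at h1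
      exact h1
  have hψt : Tendsto ψ (𝓝 0) (𝓝 zs) := by
    have h1 := hψa.continuousAt.tendsto
    rw [hψ0] at h1
    exact h1
  have hall := (hψa.eventually_analyticAt.and hr).and ((hψt.eventually E1).and (hψt.eventually E2))
  obtain ⟨η, hη, hball⟩ := Metric.eventually_nhds_iff_ball.1 hall
  refine ⟨η, hη, ?_⟩
  filter_upwards [hl, E1] with z z1 z2 t ht ht0 hfz hzt
  have hGt : G z = t := by
    have h1 : f z = G z * (t⁻¹ * f z) := by rw [← hzt]; exact z2
    have h2 : (G z * t⁻¹ - 1) * f z = 0 := by linear_combination -h1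
    have h3 : G z * t⁻¹ - 1 = 0 := (mul_eq_zero.1 h2).resolve_right hfz
    have h4 : G z * t⁻¹ = 1 := by linear_combination h3
    calc G z = G z * t⁻¹ * t := by rw [mul_assoc, inv_mul_cancel₀ ht0, mul_one]
      _ = t := by rw [h4, one_mul]
  refine ⟨ψ, ?_, hψ0, ?_, ?_⟩
  · intro u hu
    exact (hball u hu).1.1.differentiableAt.differentiableWithinAt
  · rw [← hGt]; exact z1
  · intro u hu
    have hu' : u ∈ ball (0 : ℂ) η := by
      rw [mem_ball_zero_iff]; exact hu.2
    have hu0 : u ≠ 0 := norm_pos_iff.1 hu.1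
    obtain ⟨⟨-, h1⟩, h2, h3⟩ := hball u hu'
    have h4 : ψ u ≠ zs := by
      intro h
      rw [h, hG0] at h1
      exact hu0 h1.symm
    refine ⟨h3 h4, ?_⟩
    rw [h1] at h2
    show ψ u * deriv f (ψ u) = u⁻¹ * f (ψ u)
    rw [h2, ← mul_assoc, inv_mul_cancel₀ hu0, one_mul]

end Pool.Agent.W29.MX
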